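import Mathlib

set_option autoImplicit false

/-!
# The constant of the saddle point (base file, Mathlib only)
-/

open Complex MeasureTheory

namespace Pool.Agent.H505.GA

/-- the integrand -/
noncomputable def gg (k : ℕ) (x : ℝ) : ℂ := cexp (k * (cexp (I * x) - 1 - I * x))

theorem gg_cont (k : ℕ) : Continuous (gg k) := by
  unfold gg
  fun_prop

theorem gg_re (k : ℕ) (x : ℝ) :
    (gg k x).re = Real.exp (k * (Real.cos x - 1)) * Real.cos (k * (Real.sin x - x)) := by
  have e : (k : ℂ) * (cexp (I * x) - 1 - I * x) =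
      ((k * (Real.cos x - 1) : ℝ) : ℂ) + ((k * (Real.sin x - x) : ℝ) : ℂ) * I := by
    rw [mul_comm I (x : ℂ), Complex.exp_mul_I]
    push_cast
    ring
  rw [gg, e, Complex.exp_re]
  rw [Complex.add_re, Complex.add_im, Complex.re_ofReal_mul, Complex.im_ofReal_mul, Complex.ofReal_re,
    Complex.ofReal_im, Complex.I_re, Complex.I_im, mul_zero, mul_one, add_zero, zero_add]

theorem cos_le {x : ℝ} (hx : |x| ≤ 1 / 8) : Real.cos x - 1 ≤ -(x ^ 2 / 3) := by
  have h1 := Real.cos_bound (x := x) (by linarith)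
  have h2 := (abs_le.1 h1).2
  have h3 : |x| ^ 4 = x ^ 2 * x ^ 2 := by
    rw [← sq_abs x]
    ring
  have h4 : x ^ 2 ≤ (1 / 8) ^ 2 := by
    rw [← sq_abs x]
    exact pow_le_pow_left₀ (abs_nonneg x) hx 2
  have h5 : x ^ 2 * x ^ 2 ≤ x ^ 2 * (1 / 8) ^ 2 := mul_le_mul_of_nonneg_left h4 (sq_nonneg x)
  rw [h3] at h2
  nlinarith [sq_nonneg x]

theorem sin_sub_le {x : ℝ} (hx : |x| ≤ 1 / 8) : |Real.sin x - x| ≤ |x| ^ 3 / 5 := by
  have h1 := Real.sin_bound (x := x) (by linarith)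
  have e : Real.sin x - x = (Real.sin x - (x - x ^ 3 / 6)) + (-(x ^ 3 / 6)) := by ring
  rw [e]
  refine (abs_add_le _ _).trans ?_
  have h2 : |-(x ^ 3 / 6)| = |x| ^ 3 / 6 := by
    rw [abs_neg, abs_div, abs_pow]
    norm_num
  rw [h2]
  have h3 : |x| ^ 5 ≤ |x| ^ 3 * (1 / 8) ^ 2 := by
    rw [show |x| ^ 5 = |x| ^ 3 * |x| ^ 2 by ring]
    exact mul_le_mul_of_nonneg_left (pow_le_pow_left₀ (abs_nonneg x) hx 2) (by positivity)
  have h4 : 0 ≤ |x| ^ 3 := by positivity
  linarith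

/-- lower bound everywhere -/
theorem re_low {k : ℕ} {c x : ℝ} (hc : 0 < c) (hck : c ^ 3 = k) (hx : |x| ≤ 1 / 8) :
    -Real.exp (-(c / 3)) ≤ (gg k x).re := by
  rw [gg_re]
  have hk0 : (0 : ℝ) ≤ k := Nat.cast_nonneg k
  rcases le_or_gt ((k : ℝ) * |x| ^ 3) 1 with h | h
  · have h1 : |(k : ℝ) * (Real.sin x - x)| ≤ 1 / 5 := by
      rw [abs_mul, abs_of_nonneg hk0]
      have := mul_le_mul_of_nonneg_left (sin_sub_le hx) hk0
      linarith
    have h2 : 0 ≤ Real.cos (k * (Real.sin x - x)) := by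
      apply Real.cos_nonneg_of_mem_Icc
      have := abs_le.1 h1
      have hpi := Real.pi_gt_three
      constructor <;> linarith
    have h3 : 0 ≤ Real.exp (k * (Real.cos x - 1)) * Real.cos (k * (Real.sin x - x)) :=
      mul_nonneg (Real.exp_pos _).le h2
    have := Real.exp_pos (-(c / 3))
    linarith
  · have h1 : 1 / c ≤ |x| := by
      by_contra hcon
      push Not at hcon
      have h2 : |x| ^ 3 < (1 / c) ^ 3 := pow_lt_pow_left₀ hcon (abs_nonneg x) (by norm_num)
      have h3 : (k : ℝ) * |x| ^ 3 ≤ k * (1 / c) ^ 3 := mul_le_mul_of_nonneg_left h2.le hk0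
      have h4 : (k : ℝ) * (1 / c) ^ 3 = 1 := by
        rw [← hck]
        field_simp
      linarith
    have h2 : c ≤ k * x ^ 2 := by
      have h3 : (1 / c) ^ 2 ≤ x ^ 2 := by
        rw [← sq_abs x]
        exact pow_le_pow_left₀ (by positivity) h1 2
      have h4 : (k : ℝ) * (1 / c) ^ 2 = c := by
        rw [← hck]
        field_simp
      have h5 := mul_le_mul_of_nonneg_left h3 hk0
      linarith
    have h3 : Real.exp (k * (Real.cos x - 1)) ≤ Real.exp (-(c / 3)) := by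
      apply Real.exp_le_exp.2
      have := mul_le_mul_of_nonneg_left (cos_le hx) hk0
      linarith
    have h4 := Real.neg_one_le_cos (k * (Real.sin x - x))
    have h5 := Real.exp_pos (k * (Real.cos x - 1))
    nlinarith

/-- lower bound in the middle -/
theorem re_mid {k : ℕ} {x : ℝ} (hk : 64 ≤ k) (hx : |x| ≤ 1 / Real.sqrt k) :
    1 / 2 ≤ (gg k x).re := by
  rw [gg_re]
  have hk0 : (64 : ℝ) ≤ k := by exact_mod_cast hk
  have hs : (8 : ℝ) ≤ Real.sqrt k := Real.le_sqrt_of_sq_le (by norm_num; linarith)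
  have hss : Real.sqrt k ^ 2 = k := Real.sq_sqrt (by linarith)
  have hx8 : |x| ≤ 1 / 8 := hx.trans (one_div_le_one_div_of_le (by norm_num) hs)
  have h1 : (k : ℝ) * |x| ^ 2 ≤ 1 := by
    have h2 : |x| ^ 2 ≤ (1 / Real.sqrt k) ^ 2 := pow_le_pow_left₀ (abs_nonneg x) hx 2
    have h3 : (k : ℝ) * (1 / Real.sqrt k) ^ 2 = 1 := by
      rw [div_pow, one_pow, hss]
      field_simp
    have h4 := mul_le_mul_of_nonneg_left h2 (by linarith : (0 : ℝ) ≤ k)
    linarith
  have h2 : (k : ℝ) * |x| ^ 3 ≤ 1 := by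
    have : (k : ℝ) * |x| ^ 3 = k * |x| ^ 2 * |x| := by ring
    rw [this]
    have h3 : (k : ℝ) * |x| ^ 2 * |x| ≤ 1 * 1 :=
      mul_le_mul h1 (by linarith) (abs_nonneg x) (by norm_num)
    linarith
  have h3 : |(k : ℝ) * (Real.sin x - x)| ≤ 1 / 5 := by
    rw [abs_mul, abs_of_nonneg (by linarith : (0 : ℝ) ≤ k)]
    have := mul_le_mul_of_nonneg_left (sin_sub_le hx8) (by linarith : (0 : ℝ) ≤ k)
    linarith
  have h4 : 49 / 50 ≤ Real.cos (k * (Real.sin x - x)) := by
    have h5 := Real.one_sub_sq_div_two_le_cos (x := (k : ℝ) * (Real.sin x - x))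
    have h6 : ((k : ℝ) * (Real.sin x - x)) ^ 2 ≤ (1 / 5) ^ 2 := by
      rw [← sq_abs]
      exact pow_le_pow_left₀ (abs_nonneg _) h3 2
    linarith
  have h5 : (10 : ℝ) / 19 ≤ Real.exp (k * (Real.cos x - 1)) := by
    have h6 : -(1 / 2 : ℝ) ≤ k * (Real.cos x - 1) := by
      have h7 := Real.one_sub_sq_div_two_le_cos (x := x)
      have h8 : (k : ℝ) * (-(x ^ 2 / 2)) ≤ k * (Real.cos x - 1) :=
        mul_le_mul_of_nonneg_left (by linarith) (by linarith)
      rw [sq_abs] at h1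
      linarith
    refine le_trans ?_ (Real.exp_le_exp.2 h6)
    rw [Real.exp_neg, ← one_div, div_le_div_iff₀ (by norm_num) (Real.exp_pos _)]
    have h9 : Real.exp (1 / 2) ^ 2 = Real.exp 1 := by
      rw [← Real.exp_nat_mul]
      norm_num
    have h10 := Real.exp_one_lt_d9
    have h11 := Real.exp_pos (1 / 2)
    nlinarith
  calc (1 : ℝ) / 2 ≤ 10 / 19 * (49 / 50) := by norm_num
    _ ≤ _ := mul_le_mul h5 h4 (by norm_num) (Real.exp_pos _).le

theorem part_one {k : ℕ} (hk : 6561 ≤ k) :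
    1 / (2 * Real.sqrt k) ≤ ‖∫ x in (-(1 / 8) : ℝ)..(1 / 8), gg k x‖ := by
  have hk0 : (6561 : ℝ) ≤ k := by exact_mod_cast hk
  have hk00 : (0 : ℝ) < k := by linarith
  have hs : (81 : ℝ) ≤ Real.sqrt k := Real.le_sqrt_of_sq_le (by norm_num; linarith)
  have hss : Real.sqrt k * Real.sqrt k = k := Real.mul_self_sqrt (by linarith)
  have hint : ∀ a b : ℝ, IntervalIntegrable (gg k) volume a b := fun a b => (gg_cont k).intervalIntegrable a b
  have hre : Continuous fun x => (gg k x).re := Complex.continuous_re.comp (gg_cont k)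
  have hint' : ∀ a b : ℝ, IntervalIntegrable (fun x => (gg k x).re) volume a b :=
    fun a b => hre.intervalIntegrable a b
  have e1 : (∫ x in (-(1 / 8) : ℝ)..(1 / 8), gg k x).re = ∫ x in (-(1 / 8) : ℝ)..(1 / 8), (gg k x).re := by
    have := Complex.reCLM.intervalIntegral_comp_comm (hint (-(1 / 8)) (1 / 8))
    simpa using this.symm
  set s : ℝ := 1 / Real.sqrt k with hsdef
  have hs0 : 0 < s := by positivity
  have hs8 : s ≤ 1 / 8 := one_div_le_one_div_of_le (by norm_num) (by linarith)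
  obtain ⟨c, hc, hck⟩ : ∃ c : ℝ, 0 < c ∧ c ^ 3 = k := by
    refine ⟨(k : ℝ) ^ (1 / 3 : ℝ), Real.rpow_pos_of_pos hk00 _, ?_⟩
    rw [← Real.rpow_natCast, ← Real.rpow_mul hk00.le]
    norm_num
  set E : ℝ := Real.exp (-(c / 3)) with hE
  have hE0 : 0 < E := Real.exp_pos _
  have hE1 : E ≤ 162 / k := by
    rw [hE, Real.exp_neg, ← one_div, div_le_div_iff₀ (Real.exp_pos _) hk00]
    have h1 := Real.pow_div_factorial_le_exp (c / 3) (by positivity) 3
    have h2 : (c / 3) ^ 3 / (Nat.factorial 3 : ℝ) = k / 162 := by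
      rw [div_pow, hck]
      norm_num [Nat.factorial]
      ring
    rw [h2] at h1
    linarith
  have hE2 : E ≤ 2 * s := by
    refine hE1.trans ?_
    rw [hsdef, mul_one_div, div_le_div_iff₀ hk00 (by linarith)]
    nlinarith
  have a1 : -(E * (1 / 8 - s)) ≤ ∫ x in (-(1 / 8) : ℝ)..(-s), (gg k x).re := by
    have h := intervalIntegral.integral_mono_on (a := -(1 / 8)) (b := -s) (f := fun _ => -E)
      (g := fun x => (gg k x).re) (by linarith) (by simp) (hint' _ _)
      (fun x hx => re_low hc hck (abs_le.2 ⟨hx.1, by linarith [hx.2]⟩))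
    rw [intervalIntegral.integral_const, smul_eq_mul] at h
    linarith
  have a3 : -(E * (1 / 8 - s)) ≤ ∫ x in s..(1 / 8), (gg k x).re := by
    have h := intervalIntegral.integral_mono_on (a := s) (b := 1 / 8) (f := fun _ => -E)
      (g := fun x => (gg k x).re) (by linarith) (by simp) (hint' _ _)
      (fun x hx => re_low hc hck (abs_le.2 ⟨by linarith [hx.1], hx.2⟩))
    rw [intervalIntegral.integral_const, smul_eq_mul] at h
    linarith
  have a2 : s ≤ ∫ x in (-s)..s, (gg k x).re := by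
    have h := intervalIntegral.integral_mono_on (a := -s) (b := s) (f := fun _ => (1 / 2 : ℝ))
      (g := fun x => (gg k x).re) (by linarith) (by simp) (hint' _ _)
      (fun x hx => re_mid (by omega) (abs_le.2 ⟨hx.1, hx.2⟩))
    rw [intervalIntegral.integral_const, smul_eq_mul] at h
    linarith
  have e2 : (∫ x in (-(1 / 8) : ℝ)..(1 / 8), (gg k x).re) =
      (∫ x in (-(1 / 8) : ℝ)..(-s), (gg k x).re) + (∫ x in (-s)..s, (gg k x).re) +
        ∫ x in s..(1 / 8), (gg k x).re := by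
    rw [intervalIntegral.integral_add_adjacent_intervals (hint' _ _) (hint' _ _),
      intervalIntegral.integral_add_adjacent_intervals (hint' _ _) (hint' _ _)]
  have e3 : 1 / (2 * Real.sqrt k) = s / 2 := by
    rw [hsdef]
    field_simp
  rw [e3]
  refine le_trans ?_ (Complex.re_le_norm _)
  rw [e1, e2]
  nlinarith

theorem part_two {k : ℕ} (hk : 1 ≤ k) :
    ∫ x in (-(1 / 8) : ℝ)..(1 / 8), |x| * Real.exp (k * (Real.cos x - 1)) ≤ 3 / k := by
  have hk0 : (0 : ℝ) < k := by exact_mod_cast hk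
  have hd : ∀ x : ℝ, HasDerivAt (fun x : ℝ => -(3 / (2 * k)) * Real.exp (-(k * x ^ 2 / 3)))
      (x * Real.exp (-(k * x ^ 2 / 3))) x := by
    intro x
    have h1 : HasDerivAt (fun x : ℝ => -(k * x ^ 2 / 3)) (-(k * (2 * x) / 3)) x := by
      have h2 : HasDerivAt (fun x : ℝ => x ^ 2) (2 * x) x := by
        simpa using hasDerivAt_pow 2 x
      exact ((h2.const_mul (k : ℝ)).div_const 3).neg
    have h3 := (h1.exp.const_mul (-(3 / (2 * (k : ℝ)))))
    refine h3.congr_deriv ?_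
    field_simp
  have hc1 : Continuous fun x : ℝ => x * Real.exp (-(k * x ^ 2 / 3)) := by fun_prop
  have hc2 : Continuous fun x : ℝ => |x| * Real.exp (k * (Real.cos x - 1)) := by fun_prop
  have b : ∀ x : ℝ, |x| ≤ 1 / 8 → |x| * Real.exp (k * (Real.cos x - 1)) ≤
      |x| * Real.exp (-(k * x ^ 2 / 3)) := by
    intro x hx
    apply mul_le_mul_of_nonneg_left _ (abs_nonneg x)
    apply Real.exp_le_exp.2
    have := mul_le_mul_of_nonneg_left (cos_le hx) hk0.le
    linarith
  have i1 : ∫ x in (0 : ℝ)..(1 / 8), |x| * Real.exp (k * (Real.cos x - 1)) ≤ 3 / (2 * k) := by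
    have h1 : ∫ x in (0 : ℝ)..(1 / 8), |x| * Real.exp (k * (Real.cos x - 1)) ≤
        ∫ x in (0 : ℝ)..(1 / 8), x * Real.exp (-(k * x ^ 2 / 3)) := by
      apply intervalIntegral.integral_mono_on (by norm_num) (hc2.intervalIntegrable _ _)
        (hc1.intervalIntegrable _ _)
      intro x hx
      have h2 := b x (abs_le.2 ⟨by linarith [hx.1], hx.2⟩)
      rwa [abs_of_nonneg hx.1] at h2 ⊢
    rw [intervalIntegral.integral_eq_sub_of_hasDerivAt (fun x _ => hd x) (hc1.intervalIntegrable _ _)] at h1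
    have h3 : 0 ≤ 3 / (2 * (k : ℝ)) * Real.exp (-(k * (1 / 8) ^ 2 / 3)) := by positivity
    have h4 : Real.exp (-((k : ℝ) * 0 ^ 2 / 3)) = 1 := by simp
    rw [h4] at h1
    linarith
  have i2 : ∫ x in (-(1 / 8) : ℝ)..0, |x| * Real.exp (k * (Real.cos x - 1)) ≤ 3 / (2 * k) := by
    have h1 : ∫ x in (-(1 / 8) : ℝ)..0, |x| * Real.exp (k * (Real.cos x - 1)) ≤
        ∫ x in (-(1 / 8) : ℝ)..0, -(x * Real.exp (-(k * x ^ 2 / 3))) := by
      apply intervalIntegral.integral_mono_on (by norm_num) (hc2.intervalIntegrable _ _)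
        (hc1.neg.intervalIntegrable _ _)
      intro x hx
      have h2 := b x (abs_le.2 ⟨hx.1, by linarith [hx.2]⟩)
      rw [abs_of_nonpos hx.2] at h2 ⊢
      refine h2.trans (le_of_eq ?_)
      simp
    rw [intervalIntegral.integral_neg,
      intervalIntegral.integral_eq_sub_of_hasDerivAt (fun x _ => hd x) (hc1.intervalIntegrable _ _)] at h1
    have h3 : 0 ≤ 3 / (2 * (k : ℝ)) * Real.exp (-(k * (-(1 / 8)) ^ 2 / 3)) := by positivity
    have h4 : Real.exp (-((k : ℝ) * 0 ^ 2 / 3)) = 1 := by simp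
    rw [h4] at h1
    linarith
  have e : (∫ x in (-(1 / 8) : ℝ)..(1 / 8), |x| * Real.exp (k * (Real.cos x - 1))) =
      (∫ x in (-(1 / 8) : ℝ)..0, |x| * Real.exp (k * (Real.cos x - 1))) +
        ∫ x in (0 : ℝ)..(1 / 8), |x| * Real.exp (k * (Real.cos x - 1)) := by
    rw [intervalIntegral.integral_add_adjacent_intervals (hc2.intervalIntegrable _ _)
      (hc2.intervalIntegrable _ _)]
  have e2 : 3 / (k : ℝ) = 3 / (2 * k) + 3 / (2 * k) := by
    field_simp
    norm_num
  rw [e, e2]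
  linarith

end Pool.Agent.H505.GA
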