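import Pool.Agent.H487.GA.Stm2
import Pool.Agent.H505.GA.PrecaBase

set_option autoImplicit false

/-!
# The constant of the saddle point
-/

namespace Pool.Agent.H505.GA

theorem preca_proof : Pool.Agent.H487.GA.S_PRECA :=
  ⟨6561, by norm_num, fun _ hk => ⟨part_one hk, part_two (le_trans (by norm_num) hk)⟩⟩

end Pool.Agent.H505.GA
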